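import Mathlib
import Pool.Agent.W702.CoHopf.Main
import Pool.Agent.W386.Grp

/-!
A finitely presented co-hopfian group with a subgroup of index two that is not co-hopfian.

The group is `G = (C_3 * C_5) ⋊ C_2`, where the involution inverts all letters; it is the amalgamated
product of the dihedral groups of orders six and ten along a subgroup of order two. The subgroup is
`H = C_3 * C_5`. That `G` is co-hopfian and `H` is not is proved in `Pool/Agent/W702/CoHopf/Main`; here
both groups are shown to be finitely presented.
-/

set_option autoImplicit false

namespace Pool.Agent.Results.MP_ce3880_al.FPFiniteIndexSubgroup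

open Pool.Agent.W702.CoHopf

/-- `C_3 * C_5` as a binary free product -/
noncomputable def binary : Monoid.Coprod (M true) (M false) ≃* N :=
  MonoidHom.toMulEquiv
    (Monoid.Coprod.lift (Monoid.CoprodI.of (M := M) (i := true))
      (Monoid.CoprodI.of (M := M) (i := false)))
    (Monoid.CoprodI.lift fun b => match b with
      | true => Monoid.Coprod.inl
      | false => Monoid.Coprod.inr)
    (by
      apply Monoid.Coprod.hom_ext
      · ext x
        simp
      · ext x
        simp)
    (by
      apply Monoid.CoprodI.ext_hom
      intro b
      cases b
      · ext x
        simp
      · ext x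
        simp)

theorem finite_M (b : Bool) : Finite (M b) := by
  cases b
  · exact inferInstanceAs (Finite (Multiplicative (ZMod 5)))
  · exact inferInstanceAs (Finite (Multiplicative (ZMod 3)))

theorem N_fp : Group.IsFinitelyPresented N := by
  have h1 := finite_M true
  have h2 := finite_M false
  exact Group.IsFinitelyPresented.equiv binary

theorem G_fp : Group.IsFinitelyPresented G :=
  Pool.Agent.W386.fp_ext (SemidirectProduct.inl (φ := act)) SemidirectProduct.inl_injective
    (SemidirectProduct.rightHom (φ := act)) SemidirectProduct.rightHom_surjective
    SemidirectProduct.range_inl_eq_ker_rightHom.symm N_fp inferInstance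

theorem H_fp : Group.IsFinitelyPresented H := by
  have h := N_fp
  have e : N ≃* H := (MonoidHom.ofInjective (SemidirectProduct.inl_injective (φ := act))).trans
    (MulEquiv.subgroupCongr H_eq.symm)
  exact Group.IsFinitelyPresented.equiv e

/-- There is a finitely presented group `G`, each of whose injective endomorphisms is surjective, and
a finitely presented subgroup `H` of index two in `G` with an injective endomorphism that is not
surjective. -/
theorem result : ∃ (G : Type) (_ : Group G) (H : Subgroup G),
    Group.IsFinitelyPresented G ∧ Group.IsFinitelyPresented H ∧ H.index = 2 ∧
    (∀ f : G →* G, Function.Injective f → Function.Surjective f) ∧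
    ∃ f : H →* H, Function.Injective f ∧ ¬ Function.Surjective f := by
  refine ⟨Pool.Agent.W702.CoHopf.G, inferInstance, Pool.Agent.W702.CoHopf.H, G_fp, H_fp, index_H,
    coHopfian_G, ?_⟩
  have h := not_coHopfian_H
  unfold CoHopfian at h
  push Not at h
  exact h

end Pool.Agent.Results.MP_ce3880_al.FPFiniteIndexSubgroup
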